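import Pool.Agent.Helper94.Pair2

set_option autoImplicit false

open Filter Topology Complex Set Asymptotics Metric Bornology
open Pool.Agent.Helper94.Half

namespace Pool.Agent.Results.MP_f98e31_an.SmoothPointRigidity

/-- The space `ℂ²` with the Euclidean norm. -/
abbrev C2 : Type := EuclideanSpace ℂ (Fin 2)

/-- The symmetrized bidisc. -/
def symBidisc : Set C2 :=
  {q | ∃ l₁ l₂ : ℂ, ‖l₁‖ < 1 ∧ ‖l₂‖ < 1 ∧ q = !₂[l₁ + l₂, l₁ * l₂]}

/-- The Shilov boundary of the symmetrized bidisc. -/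
def shilovBdry : Set C2 :=
  {q | ∃ l₁ l₂ : ℂ, ‖l₁‖ = 1 ∧ ‖l₂‖ = 1 ∧ q = !₂[l₁ + l₂, l₁ * l₂]}

/-- The Burns–Krantz rigidity property of the pair `(D, p)`. -/
def BurnsKrantz (D : Set C2) (p : C2) : Prop :=
  ∀ F : C2 → C2, DifferentiableOn ℂ F D → MapsTo F D D →
    (fun z => F z - z) =o[𝓝[D] p] (fun z => ‖z - p‖ ^ 3) → ∀ z ∈ D, F z = z

/-- the symmetrization map -/
def sy (a b : ℂ) : C2 := !₂[a + b, a * b]

@[simp] theorem sy_0 (a b : ℂ) : sy a b 0 = a + b := rfl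
@[simp] theorem sy_1 (a b : ℂ) : sy a b 1 = a * b := rfl

theorem sy_comm (a b : ℂ) : sy a b = sy b a := by
  unfold sy; rw [add_comm, mul_comm]

theorem ext2 {x y : C2} (h0 : x 0 = y 0) (h1 : x 1 = y 1) : x = y := by
  ext i; fin_cases i
  · exact h0
  · exact h1

theorem norm_le2 (x : C2) : ‖x‖ ≤ ‖x 0‖ + ‖x 1‖ := by
  have h : x = EuclideanSpace.single 0 (x 0) + EuclideanSpace.single 1 (x 1) := by
    apply ext2 <;> simp
  calc ‖x‖ = ‖EuclideanSpace.single (0 : Fin 2) (x 0) + EuclideanSpace.single (1 : Fin 2) (x 1)‖ := by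
        rw [← h]
    _ ≤ _ := norm_add_le _ _
    _ = ‖x 0‖ + ‖x 1‖ := by simp

theorem continuous_sy : Continuous (fun p : ℂ × ℂ => sy p.1 p.2) := by
  unfold sy
  apply (PiLp.continuous_toLp 2 _).comp
  apply continuous_pi
  intro i
  fin_cases i
  · exact continuous_fst.add continuous_snd
  · exact continuous_fst.mul continuous_snd

theorem exists_roots (s p : ℂ) : ∃ a b : ℂ, a + b = s ∧ a * b = p := by
  obtain ⟨d, hd⟩ := IsAlgClosed.exists_pow_nat_eq (s ^ 2 - 4 * p) (n := 2) two_pos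
  refine ⟨(s + d) / 2, (s - d) / 2, by ring, ?_⟩
  linear_combination (-1 / 4) * hd

theorem mem_iff (q : C2) : q ∈ symBidisc ↔ ∀ u : ℂ, ‖u‖ ≤ 1 → 1 - q 0 * u + q 1 * u ^ 2 ≠ 0 := by
  constructor
  · rintro ⟨a, b, ha, hb, rfl⟩ u hu h
    have h1 : (1 - a * u) * (1 - b * u) = 0 := by
      simp at h
      linear_combination h
    have key : ∀ c : ℂ, ‖c‖ < 1 → 1 - c * u ≠ 0 := by
      intro c hc h2
      have h3 : c * u = 1 := (sub_eq_zero.1 h2).symm
      have h4 : ‖c * u‖ = 1 := by rw [h3, norm_one]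
      rw [norm_mul] at h4
      nlinarith [norm_nonneg c, norm_nonneg u]
    rcases mul_eq_zero.1 h1 with h2 | h2
    · exact key a ha h2
    · exact key b hb h2
  · intro h
    obtain ⟨a, b, hab, hab'⟩ := exists_roots (q 0) (q 1)
    have key : ∀ c d : ℂ, c + d = q 0 → c * d = q 1 → ‖c‖ < 1 := by
      intro c d h1 h2
      by_contra hc
      push Not at hc
      have hc0 : c ≠ 0 := by
        rw [← norm_pos_iff]; linarith
      have h3 := h c⁻¹ (by rw [norm_inv]; exact inv_le_one_of_one_le₀ hc)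
      apply h3
      rw [← h1, ← h2]
      field_simp
      ring
    refine ⟨a, b, key a b hab hab', key b a (by rw [add_comm]; exact hab)
      (by rw [mul_comm]; exact hab'), ?_⟩
    apply ext2
    · simp [hab]
    · simp [hab']

theorem isOpen_symBidisc : IsOpen symBidisc := by
  rw [← isClosed_compl_iff]
  have h1 : IsClosed {x : closedBall (0 : ℂ) 1 × C2 |
      1 - x.2 0 * (x.1 : ℂ) + x.2 1 * (x.1 : ℂ) ^ 2 = 0} := by
    apply isClosed_eq _ continuous_const
    fun_prop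
  have : CompactSpace (closedBall (0 : ℂ) 1) := isCompact_iff_compactSpace.1 (isCompact_closedBall 0 1)
  have h2 := isClosedMap_snd_of_compactSpace _ h1
  convert h2 using 1
  ext q
  simp only [mem_compl_iff, mem_iff, not_forall, mem_image, mem_ofPred_eq, Prod.exists,
    exists_eq_right, Subtype.exists, mem_closedBall_zero_iff, ne_eq, not_not, exists_prop]

theorem smooth_point {p : C2} (hp : p ∈ frontier symBidisc \ shilovBdry) :
    ∃ ω μ : ℂ, ‖ω‖ = 1 ∧ ‖μ‖ < 1 ∧ p = sy ω μ := by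
  obtain ⟨hp1, hp2⟩ := hp
  rw [isOpen_symBidisc.frontier_eq] at hp1
  obtain ⟨hcl, hnot⟩ := hp1
  have hK : IsCompact ((fun p : ℂ × ℂ => sy p.1 p.2) '' (closedBall (0 : ℂ) 1 ×ˢ closedBall (0 : ℂ) 1)) :=
    ((isCompact_closedBall 0 1).prod (isCompact_closedBall 0 1)).image continuous_sy
  have hsub : symBidisc ⊆
      (fun p : ℂ × ℂ => sy p.1 p.2) '' (closedBall (0 : ℂ) 1 ×ˢ closedBall (0 : ℂ) 1) := by
    rintro q ⟨a, b, ha, hb, rfl⟩
    exact ⟨(a, b), ⟨by simpa using ha.le, by simpa using hb.le⟩, rfl⟩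
  obtain ⟨⟨a, b⟩, ⟨ha, hb⟩, hab⟩ := (closure_minimal hsub hK.isClosed) hcl
  simp only [mem_closedBall_zero_iff] at ha hb
  simp only at hab
  rcases ha.lt_or_eq with ha' | ha'
  · rcases hb.lt_or_eq with hb' | hb'
    · exact absurd ⟨a, b, ha', hb', hab.symm⟩ hnot
    · exact ⟨b, a, hb', ha', by rw [sy_comm]; exact hab.symm⟩
  · rcases hb.lt_or_eq with hb' | hb'
    · exact ⟨a, b, ha', hb', hab.symm⟩
    · exact absurd ⟨a, b, ha', hb', hab.symm⟩ hp2


section Coord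

variable (ω β : ℂ) (x : ℝ)

/-- denominator -/
noncomputable def Bf (w : ℂ) : ℂ := x * w + β

/-- half-plane coordinate to disc coordinate -/
noncomputable def lf (w : ℂ) : ℂ := ω - 2 * ω / Bf β x w

/-- disc coordinate to half-plane coordinate -/
noncomputable def Wf (z : ℂ) : ℂ := (2 * ω / (ω - z) - β) / x

noncomputable def Df (q : C2) : ℂ := ω ^ 2 - ω * q 0 + q 1

noncomputable def Tf (q : C2) : ℂ := 2 * ω * (2 * ω - q 0) / Df ω q

noncomputable def Sf (q : C2) : ℂ := (Tf ω q - 2 * β) / x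

noncomputable def Pf (q : C2) : ℂ := (4 * ω ^ 2 / Df ω q - β * Tf ω q + β ^ 2) / x ^ 2

variable {ω β x}

theorem Df_sy (a b : ℂ) : Df ω (sy a b) = (ω - a) * (ω - b) := by
  simp [Df]; ring

theorem ne_of_norm {z : ℂ} (hω : ‖ω‖ = 1) (hz : ‖z‖ < 1) : ω - z ≠ 0 := by
  intro h
  rw [sub_eq_zero] at h
  rw [← h, hω] at hz
  exact lt_irrefl _ hz

theorem Sf_sy (hω : ‖ω‖ = 1) {a b : ℂ} (ha : ‖a‖ < 1) (hb : ‖b‖ < 1) (hx : x ≠ 0) :
    Sf ω β x (sy a b) = Wf ω β x a + Wf ω β x b := by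
  have h1 := ne_of_norm hω ha
  have h2 := ne_of_norm hω hb
  have h3 : (x : ℂ) ≠ 0 := by exact_mod_cast hx
  rw [Sf, Tf, Df_sy, Wf, Wf, sy_0]
  field_simp
  ring

theorem Pf_sy (hω : ‖ω‖ = 1) {a b : ℂ} (ha : ‖a‖ < 1) (hb : ‖b‖ < 1) (hx : x ≠ 0) :
    Pf ω β x (sy a b) = Wf ω β x a * Wf ω β x b := by
  have h1 := ne_of_norm hω ha
  have h2 := ne_of_norm hω hb
  have h3 : (x : ℂ) ≠ 0 := by exact_mod_cast hx
  rw [Pf, Tf, Df_sy, Wf, Wf, sy_0]
  field_simp
  ring

theorem Bf_re (hβ : β.re = 1) (hx : 0 < x) {w : ℂ} (hw : w ∈ RH) : 1 < (Bf β x w).re := by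
  rw [mem_RH] at hw
  rw [Bf, add_re, hβ, Complex.re_ofReal_mul]
  nlinarith [mul_pos hx hw]

theorem Bf_ne (hβ : β.re = 1) (hx : 0 < x) {w : ℂ} (hw : w ∈ RH) : Bf β x w ≠ 0 := by
  intro h
  have := Bf_re hβ hx hw
  rw [h] at this
  simp at this
  linarith

theorem norm_lf (hω : ‖ω‖ = 1) (hβ : β.re = 1) (hx : 0 < x) {w : ℂ} (hw : w ∈ RH) :
    ‖lf ω β x w‖ < 1 := by
  have h1 := Bf_re hβ hx hw
  have h2 := Bf_ne hβ hx hw
  set B := Bf β x w with hB
  have h3 : lf ω β x w = ω * ((B - 2) / B) := by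
    rw [lf, ← hB]; field_simp
  rw [h3, norm_mul, hω, one_mul, norm_div, div_lt_one (norm_pos_iff.2 h2)]
  apply lt_of_pow_lt_pow_left₀ 2 (norm_nonneg _)
  rw [← Complex.normSq_eq_norm_sq, ← Complex.normSq_eq_norm_sq, Complex.normSq_apply,
    Complex.normSq_apply]
  simp
  nlinarith

theorem Wf_lf (hω : ‖ω‖ = 1) (hβ : β.re = 1) (hx : 0 < x) {w : ℂ} (hw : w ∈ RH) :
    Wf ω β x (lf ω β x w) = w := by
  have h2 := Bf_ne hβ hx hw
  have h3 : (x : ℂ) ≠ 0 := by exact_mod_cast hx.ne'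
  have h4 : ω ≠ 0 := by rw [← norm_pos_iff, hω]; exact one_pos
  rw [Wf, lf, sub_sub_cancel]
  have h5 : 2 * ω / (2 * ω / Bf β x w) = Bf β x w := by field_simp
  rw [h5, Bf]
  field_simp
  ring

theorem Wf_mem (hω : ‖ω‖ = 1) (hβ : β.re = 1) (hx : 0 < x) {z : ℂ} (hz : ‖z‖ < 1) :
    Wf ω β x z ∈ RH := by
  have h1 := ne_of_norm hω hz
  rw [mem_RH]
  have h2 : 1 < (2 * ω / (ω - z)).re := by
    have e : (2 * ω / (ω - z)).re - 1 = (1 - ‖z‖ ^ 2) / ‖ω - z‖ ^ 2 := by
      have hn : Complex.normSq (ω - z) ≠ 0 := by simpa using h1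
      have hw2 : ω.re ^ 2 + ω.im ^ 2 = 1 := by
        have := Complex.normSq_eq_norm_sq ω
        rw [hω, Complex.normSq_apply] at this
        nlinarith
      rw [← Complex.normSq_eq_norm_sq, ← Complex.normSq_eq_norm_sq, Complex.div_re]
      field_simp
      simp only [Complex.normSq_apply, mul_re, mul_im, sub_re, sub_im, re_ofNat, im_ofNat]
      linear_combination hw2
    have h3 : 0 < (1 - ‖z‖ ^ 2) / ‖ω - z‖ ^ 2 := by
      have : 0 < ‖ω - z‖ := norm_pos_iff.2 h1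
      have : 0 < 1 - ‖z‖ ^ 2 := by nlinarith [norm_nonneg z]
      positivity
    linarith
  rw [Wf, Complex.div_ofReal_re, sub_re, hβ]
  apply div_pos _ hx
  linarith

theorem lf_Wf (hω : ‖ω‖ = 1) (hx : 0 < x) {z : ℂ} (hz : ‖z‖ < 1) :
    lf ω β x (Wf ω β x z) = z := by
  have h1 := ne_of_norm hω hz
  have h3 : (x : ℂ) ≠ 0 := by exact_mod_cast hx.ne'
  have h4 : ω ≠ 0 := by rw [← norm_pos_iff, hω]; exact one_pos
  have h5 : Bf β x (Wf ω β x z) = 2 * ω / (ω - z) := by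
    rw [Bf, Wf]; field_simp; ring
  rw [lf, h5]
  field_simp
  ring

theorem Df_ne (hω : ‖ω‖ = 1) {q : C2} (hq : q ∈ symBidisc) : Df ω q ≠ 0 := by
  obtain ⟨a, b, ha, hb, rfl⟩ := hq
  have := Df_sy (ω := ω) a b
  rw [sy] at this
  rw [this]
  exact mul_ne_zero (ne_of_norm hω ha) (ne_of_norm hω hb)

theorem sy_mem {a b : ℂ} (ha : ‖a‖ < 1) (hb : ‖b‖ < 1) : sy a b ∈ symBidisc := ⟨a, b, ha, hb, rfl⟩

theorem inj (hω : ‖ω‖ = 1) (hx : x ≠ 0) {q r : C2} (hq : q ∈ symBidisc) (hr : r ∈ symBidisc)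
    (hS : Sf ω β x q = Sf ω β x r) (hP : Pf ω β x q = Pf ω β x r) : q = r := by
  have h3 : (x : ℂ) ≠ 0 := by exact_mod_cast hx
  have h4 : ω ≠ 0 := by rw [← norm_pos_iff, hω]; exact one_pos
  have hT : Tf ω q = Tf ω r := by
    rw [Sf, Sf] at hS
    have := (div_left_inj' h3).1 hS
    linear_combination this
  have hDq := Df_ne hω hq
  have hDr := Df_ne hω hr
  have hD : Df ω q = Df ω r := by
    rw [Pf, Pf, hT] at hP
    have h5 := (div_left_inj' (pow_ne_zero 2 h3)).1 hP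
    have h6 : 4 * ω ^ 2 / Df ω q = 4 * ω ^ 2 / Df ω r := by linear_combination h5
    rw [div_eq_div_iff hDq hDr] at h6
    have h7 : (4 : ℂ) * ω ^ 2 ≠ 0 := mul_ne_zero (by norm_num) (pow_ne_zero 2 h4)
    exact (mul_left_cancel₀ h7 h6).symm
  have h0 : q 0 = r 0 := by
    rw [Tf, Tf, hD] at hT
    have h5 := (div_left_inj' hDr).1 hT
    have h6 : (2 : ℂ) * ω ≠ 0 := mul_ne_zero two_ne_zero h4
    have h7 := mul_left_cancel₀ h6 h5
    linear_combination -h7
  apply ext2 h0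
  rw [Df, Df, h0] at hD
  linear_combination hD

end Coord

section Asymp

variable {ω β μ : ℂ} {x : ℝ}

theorem tendsto_Bf_inv (hx : 0 < x) : (fun w => (Bf β x w)⁻¹) =O[atInf] (fun w => w⁻¹) := by
  have h3 : (x : ℂ) ≠ 0 := by exact_mod_cast hx.ne'
  have h1 := bigO_div_add (1 / x : ℂ) (β / x)
  refine h1.congr_left (fun w => ?_)
  rw [Bf]
  by_cases h : w + β / x = 0
  · have : x * w + β = 0 := by
      have h5 : (x : ℂ) * (w + β / x) = 0 := by rw [h, mul_zero]
      rw [mul_add, mul_div_cancel₀ _ h3] at h5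
      exact h5
    rw [h, this]; simp
  · have : x * w + β = x * (w + β / x) := by field_simp
    rw [this]
    field_simp

theorem Bf_bigO : (fun w => Bf β x w) =O[atInf] (fun w => w) := by
  unfold Bf
  apply IsBigO.add
  · exact (isBigO_refl _ _).const_mul_left _
  · apply IsBigO.of_bound ‖β‖
    have h1 : ∀ᶠ w in atInf, (1 : ℝ) ≤ ‖w‖ :=
      atInf_le ((tendsto_norm_cobounded_atTop).eventually (eventually_ge_atTop _))
    filter_upwards [h1] with w hw
    nlinarith [norm_nonneg β]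

/-- All asymptotic information along a graph. -/
theorem asymp (hω : ‖ω‖ = 1) (hμ : ‖μ‖ < 1) (hβ : β.re = 1) (hx : 0 < x)
    (hB1 : Bf β x 1 = 2 * ω / (ω - μ)) {F : C2 → C2} (hm : MapsTo F symBidisc symBidisc)
    (hF : (fun z => F z - z) =o[𝓝[symBidisc] (sy ω μ)] (fun z => ‖z - sy ω μ‖ ^ 3))
    {φ : ℂ → ℂ} (hφm : MapsTo φ RH RH) (hφ : (fun w => φ w - 1) =O[atInf] (fun w => w⁻¹)) :
    (fun w => Sf ω β x (F (sy (lf ω β x w) (lf ω β x (φ w)))) - (w + φ w)) =o[atInf] (fun w => w⁻¹)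
    ∧ ((∀ᶠ w in atInf, Sf ω β x (F (sy (lf ω β x w) (lf ω β x (φ w)))) = w + φ w) →
      (fun w => Pf ω β x (F (sy (lf ω β x w) (lf ω β x (φ w)))) - w * φ w)
        =o[atInf] (fun w => (w ^ 2)⁻¹)) := by
  have hx0 : (x : ℂ) ≠ 0 := by exact_mod_cast hx.ne'
  have hω0 : ω ≠ 0 := by rw [← norm_pos_iff, hω]; exact one_pos
  set q0 : ℂ → C2 := fun w => sy (lf ω β x w) (lf ω β x (φ w)) with hq0
  have hq0mem : ∀ w ∈ RH, q0 w ∈ symBidisc := fun w hw =>
    sy_mem (norm_lf hω hβ hx hw) (norm_lf hω hβ hx (hφm hw))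
  -- coordinates
  have hl1 : (fun w => lf ω β x w - ω) =O[atInf] (fun w => w⁻¹) := by
    have : (fun w => lf ω β x w - ω) = fun w => (-2 * ω) * (Bf β x w)⁻¹ := by
      funext w; rw [lf, div_eq_mul_inv]; ring
    rw [this]
    exact (tendsto_Bf_inv hx).const_mul_left _
  have hl2 : (fun w => lf ω β x (φ w) - μ) =O[atInf] (fun w => w⁻¹) := by
    refine IsBigO.trans ?_ hφ
    refine IsBigO.of_bound (2 * x) ?_
    filter_upwards [eventually_mem_RH] with w hw
    have h1 := Bf_re hβ hx (hφm hw)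
    have h1' := Bf_ne hβ hx (hφm hw)
    have h2 := Bf_re hβ hx one_mem_RH
    have h2' := Bf_ne hβ hx one_mem_RH
    have hμ' : μ = ω - 2 * ω / Bf β x 1 := by
      have := ne_of_norm hω hμ
      rw [hB1]; field_simp; ring
    have e : lf ω β x (φ w) - μ = 2 * ω * x * (φ w - 1) / (Bf β x 1 * Bf β x (φ w)) := by
      rw [lf, hμ']
      field_simp
      rw [Bf, Bf]
      ring
    rw [e, norm_div, norm_mul, norm_mul, norm_mul, norm_mul, hω, Complex.norm_real,
      Real.norm_eq_abs, abs_of_pos hx]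
    have n1 : 1 ≤ ‖Bf β x 1‖ := h2.le.trans (Complex.re_le_norm _)
    have n2 : 1 ≤ ‖Bf β x (φ w)‖ := h1.le.trans (Complex.re_le_norm _)
    have n3 : 1 ≤ ‖Bf β x 1‖ * ‖Bf β x (φ w)‖ := by nlinarith
    rw [div_le_iff₀ (by linarith)]
    have hA : 0 ≤ 2 * x * ‖φ w - 1‖ := by positivity
    have e2 : ‖(2 : ℂ)‖ = 2 := by simp
    rw [e2]
    have := mul_le_mul_of_nonneg_left n3 hA
    linarith
  have hlb : (fun w => lf ω β x (φ w)) =O[atInf] (fun _ => (1 : ℂ)) := by
    refine IsBigO.of_bound 1 ?_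
    filter_upwards [eventually_mem_RH] with w hw
    simpa using (norm_lf hω hβ hx (hφm hw)).le
  have hd : (fun w => ‖q0 w - sy ω μ‖) =O[atInf] (fun w => w⁻¹) := by
    have h1 : (fun w => (q0 w - sy ω μ) 0) =O[atInf] (fun w => w⁻¹) := by
      have := hl1.add hl2
      refine this.congr_left (fun w => ?_)
      simp [hq0]
      ring
    have h2 : (fun w => (q0 w - sy ω μ) 1) =O[atInf] (fun w => w⁻¹) := by
      have h3a := hl1.mul hlb
      simp only [mul_one] at h3a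
      have h3 := h3a.add (hl2.const_mul_left ω)
      refine h3.congr_left (fun w => ?_)
      simp [hq0]
      ring
    refine IsBigO.trans (IsBigO.of_bound 1 ?_) (h1.norm_left.add h2.norm_left)
    filter_upwards with w
    rw [norm_norm, one_mul, Real.norm_of_nonneg (by positivity)]
    exact norm_le2 _
  have hq0t : Tendsto q0 atInf (𝓝[symBidisc] (sy ω μ)) := by
    rw [tendsto_nhdsWithin_iff]
    refine ⟨?_, ?_⟩
    · rw [tendsto_iff_norm_sub_tendsto_zero]
      exact hd.trans_tendsto tendsto_inv_atInf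
    · filter_upwards [eventually_mem_RH] with w hw
      exact hq0mem w hw
  set e : ℂ → C2 := fun w => F (q0 w) - q0 w with he
  have heo : e =o[atInf] (fun w => (w⁻¹) ^ 3) := by
    have h1 : e =o[atInf] (fun w => ‖q0 w - sy ω μ‖ ^ 3) := hF.comp_tendsto hq0t
    exact h1.trans_isBigO (hd.pow 3)
  have he0 : (fun w => e w 0) =o[atInf] (fun w => (w⁻¹) ^ 3) := by
    refine IsBigO.trans_isLittleO (IsBigO.of_bound 1 ?_) heo
    filter_upwards with w
    rw [one_mul]
    exact PiLp.norm_apply_le (e w) 0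
  have he1 : (fun w => e w 1) =o[atInf] (fun w => (w⁻¹) ^ 3) := by
    refine IsBigO.trans_isLittleO (IsBigO.of_bound 1 ?_) heo
    filter_upwards with w
    rw [one_mul]
    exact PiLp.norm_apply_le (e w) 1
  set eD : ℂ → ℂ := fun w => -ω * e w 0 + e w 1 with heD
  have heDo : eD =o[atInf] (fun w => (w⁻¹) ^ 3) := (he0.const_mul_left (-ω)).add he1
  set D0 : ℂ → ℂ := fun w => Df ω (q0 w) with hD0
  set D1 : ℂ → ℂ := fun w => Df ω (F (q0 w)) with hD1
  have hD10 : ∀ w, D1 w = D0 w + eD w := by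
    intro w
    simp only [hD1, hD0, heD, he, Df]
    simp
    ring
  have hD0ne : ∀ w ∈ RH, D0 w ≠ 0 := fun w hw => Df_ne hω (hq0mem w hw)
  have hD1ne : ∀ w ∈ RH, D1 w ≠ 0 := fun w hw => Df_ne hω (hm (hq0mem w hw))
  have hw0 : ∀ w ∈ RH, w ≠ 0 := by
    rintro w hw rfl
    simp [mem_RH] at hw
  -- size of `1 / D0`
  have hφt : Tendsto φ atInf (𝓝 1) := by
    have := (hφ.trans_tendsto tendsto_inv_atInf).add_const 1
    simpa using this
  have hBφ : (fun w => Bf β x (φ w)) =O[atInf] (fun _ => (1 : ℂ)) := by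
    have : Tendsto (fun w => Bf β x (φ w)) atInf (𝓝 (Bf β x 1)) := by
      unfold Bf
      exact (hφt.const_mul _).add_const _
    exact this.isBigO_one ℂ
  have hD0inv : (fun w => (D0 w)⁻¹) =O[atInf] (fun w => w) := by
    have h1 : (fun w => (4 * ω ^ 2)⁻¹ * (Bf β x w * Bf β x (φ w))) =O[atInf] (fun w => w * 1) :=
      (Bf_bigO.mul hBφ).const_mul_left _
    simp only [mul_one] at h1
    refine h1.congr' ?_ EventuallyEq.rfl
    filter_upwards [eventually_mem_RH] with w hw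
    have h2 := Bf_ne hβ hx hw
    have h3 := Bf_ne hβ hx (hφm hw)
    simp only [hD0, hq0, Df_sy, lf]
    rw [sub_sub_cancel, sub_sub_cancel]
    field_simp
    norm_num
  have hratio : (fun w => eD w * (D0 w)⁻¹) =o[atInf] (fun w => (w⁻¹) ^ 2) := by
    have h1 := heDo.mul_isBigO hD0inv
    refine h1.congr' EventuallyEq.rfl ?_
    filter_upwards [eventually_mem_RH] with w hw
    have := hw0 w hw
    field_simp
  have hratio0 : Tendsto (fun w => eD w * (D0 w)⁻¹) atInf (𝓝 0) := by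
    have h1 : Tendsto (fun w : ℂ => (w⁻¹) ^ 2) atInf (𝓝 0) := by
      have := tendsto_inv_atInf.pow 2
      simpa using this
    exact hratio.isBigO.trans_tendsto h1
  have hD1inv : (fun w => (D1 w)⁻¹) =O[atInf] (fun w => w) := by
    refine IsBigO.trans (IsBigO.of_bound 2 ?_) hD0inv
    have h1 : ∀ᶠ w in atInf, ‖eD w * (D0 w)⁻¹‖ < 1 / 2 := by
      have := hratio0.norm
      rw [norm_zero] at this
      exact this.eventually (gt_mem_nhds (by norm_num))
    filter_upwards [h1, eventually_mem_RH] with w hw hwR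
    have h2 := hD0ne w hwR
    have h3 := hD1ne w hwR
    have h4 : D1 w = D0 w * (1 + eD w * (D0 w)⁻¹) := by
      rw [hD10]; field_simp
    have h5 : 1 / 2 ≤ ‖1 + eD w * (D0 w)⁻¹‖ := by
      have := norm_sub_le_norm_add (1 : ℂ) (eD w * (D0 w)⁻¹)
      rw [norm_one] at this
      linarith
    rw [h4, mul_inv, norm_mul, norm_inv (1 + eD w * (D0 w)⁻¹), mul_comm]
    gcongr
    rw [inv_le_comm₀ (by linarith) two_pos]
    linarith
  -- the first coordinate of the base point stays bounded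
  have hc0 : Tendsto (fun w => 2 * ω - q0 w 0) atInf (𝓝 (ω - μ)) := by
    have h1 : Tendsto (fun w => lf ω β x w - ω) atInf (𝓝 0) := hl1.trans_tendsto tendsto_inv_atInf
    have h2 : Tendsto (fun w => lf ω β x (φ w) - μ) atInf (𝓝 0) :=
      hl2.trans_tendsto tendsto_inv_atInf
    have h3 : Tendsto (fun w => (ω - μ) - (lf ω β x w - ω) - (lf ω β x (φ w) - μ)) atInf
        (𝓝 ((ω - μ) - 0 - 0)) := (tendsto_const_nhds.sub h1).sub h2
    rw [sub_zero, sub_zero] at h3
    refine h3.congr (fun w => ?_)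
    simp [hq0]
    ring
  have hS0 : ∀ w ∈ RH, Sf ω β x (q0 w) = w + φ w := by
    intro w hw
    rw [hq0, Sf_sy hω (norm_lf hω hβ hx hw) (norm_lf hω hβ hx (hφm hw)) hx.ne',
      Wf_lf hω hβ hx hw, Wf_lf hω hβ hx (hφm hw)]
  have hP0 : ∀ w ∈ RH, Pf ω β x (q0 w) = w * φ w := by
    intro w hw
    rw [hq0, Pf_sy hω (norm_lf hω hβ hx hw) (norm_lf hω hβ hx (hφm hw)) hx.ne',
      Wf_lf hω hβ hx hw, Wf_lf hω hβ hx (hφm hw)]
  have hFq : ∀ w, F (q0 w) 0 = q0 w 0 + e w 0 := by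
    intro w; simp [he]
  constructor
  · -- the sum
    have h1 : (fun w => (e w 0) * (D1 w)⁻¹) =o[atInf] (fun w => w⁻¹) := by
      have h1 := he0.mul_isBigO hD1inv
      have h2 : (fun w : ℂ => (w⁻¹) ^ 3 * w) =O[atInf] (fun w => w⁻¹) := by
        refine IsBigO.of_bound 1 ?_
        have h3 : ∀ᶠ w in atInf, (1 : ℝ) ≤ ‖w‖ :=
          atInf_le ((tendsto_norm_cobounded_atTop).eventually (eventually_ge_atTop _))
        filter_upwards [eventually_mem_RH, h3] with w hw hw1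
        have := hw0 w hw
        have e1 : (w⁻¹) ^ 3 * w = w⁻¹ * w⁻¹ := by field_simp
        rw [e1, norm_mul, one_mul, norm_inv]
        have : ‖w‖⁻¹ ≤ 1 := inv_le_one_of_one_le₀ hw1
        have h5 : 0 ≤ ‖w‖⁻¹ := by positivity
        nlinarith
      exact h1.trans_isBigO h2
    have h2 : (fun w => (2 * ω - q0 w 0) * (eD w * (D0 w)⁻¹ * (D1 w)⁻¹)) =o[atInf]
        (fun w => w⁻¹) := by
      have h3 : (fun w => eD w * (D0 w)⁻¹ * (D1 w)⁻¹) =o[atInf] (fun w => w⁻¹) := by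
        have h4 := hratio.mul_isBigO hD1inv
        refine h4.congr' EventuallyEq.rfl ?_
        filter_upwards [eventually_mem_RH] with w hw
        have := hw0 w hw
        field_simp
      have h4 := (hc0.isBigO_one ℂ).mul_isLittleO h3
      simpa using h4
    have h3 := (h1.add h2).const_mul_left (-(2 * ω / x))
    refine h3.congr' ?_ EventuallyEq.rfl
    filter_upwards [eventually_mem_RH] with w hw
    have n0 := hD0ne w hw
    have n1 := hD1ne w hw
    rw [← hS0 w hw]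
    have e1 : Sf ω β x (F (q0 w)) - Sf ω β x (q0 w) =
        (2 * ω / x) * ((2 * ω - q0 w 0 - e w 0) / D1 w - (2 * ω - q0 w 0) / D0 w) := by
      simp only [Sf, Tf, hFq]
      simp only [hD1, hD0]
      field_simp
      ring
    rw [e1]
    have e2 : (2 * ω - q0 w 0 - e w 0) / D1 w - (2 * ω - q0 w 0) / D0 w =
        -(e w 0 * (D1 w)⁻¹ + (2 * ω - q0 w 0) * (eD w * (D0 w)⁻¹ * (D1 w)⁻¹)) := by
      have h5 := hD10 w
      field_simp
      rw [h5]
      ring
    rw [e2]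
    ring
  · -- the product
    intro hSeq
    have hcinv : (fun w => (2 * ω - q0 w 0)⁻¹) =O[atInf] (fun _ => (1 : ℂ)) :=
      (hc0.inv₀ (ne_of_norm hω hμ)).isBigO_one ℂ
    have h1 : (fun w => (2 * ω - q0 w 0)⁻¹ * (e w 0 * (D1 w)⁻¹)) =o[atInf]
        (fun w => (w ^ 2)⁻¹) := by
      have h2 := hcinv.mul_isLittleO (he0.mul_isBigO hD1inv)
      refine h2.congr' EventuallyEq.rfl ?_
      filter_upwards [eventually_mem_RH] with w hw
      have := hw0 w hw
      field_simp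
    have h2 := h1.const_mul_left (4 * ω ^ 2 / x ^ 2)
    refine h2.congr' ?_ EventuallyEq.rfl
    have hcne : ∀ᶠ w in atInf, 2 * ω - q0 w 0 ≠ 0 := hc0.eventually_ne (ne_of_norm hω hμ)
    filter_upwards [eventually_mem_RH, hSeq, hcne] with w hw hSw hcw
    have n0 := hD0ne w hw
    have n1 := hD1ne w hw
    rw [← hS0 w hw] at hSw
    rw [← hP0 w hw]
    have hT : Tf ω (F (q0 w)) = Tf ω (q0 w) := by
      rw [Sf, Sf] at hSw
      have := (div_left_inj' hx0).1 hSw
      linear_combination this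
    have e1 : Pf ω β x (F (q0 w)) - Pf ω β x (q0 w) =
        4 * ω ^ 2 / x ^ 2 * ((D1 w)⁻¹ - (D0 w)⁻¹) := by
      simp only [Pf, hT]
      simp only [hD1, hD0]
      field_simp
      ring
    rw [e1]
    congr 1
    -- relation between `eD` and `e 0`
    have h5 : (2 * ω - q0 w 0 - e w 0) * D0 w = (2 * ω - q0 w 0) * D1 w := by
      rw [Tf, Tf, hFq] at hT
      have h6 : (2 : ℂ) * ω ≠ 0 := mul_ne_zero two_ne_zero hω0
      rw [div_eq_div_iff n1 n0] at hT
      have h7 : 2 * ω * ((2 * ω - (q0 w 0 + e w 0)) * D0 w) =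
          2 * ω * ((2 * ω - q0 w 0) * D1 w) := by
        simp only [hD0, hD1]
        linear_combination hT
      have h8 := mul_left_cancel₀ h6 h7
      linear_combination h8
    field_simp
    linear_combination -h5

end Asymp

/-- **Burns–Krantz rigidity at the smooth boundary points of the symmetrized bidisc.** -/
theorem result : ∀ p ∈ frontier symBidisc \ shilovBdry, BurnsKrantz symBidisc p := by
  intro p hp F hFd hm hF
  obtain ⟨ω, μ, hω, hμ, rfl⟩ := smooth_point hp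
  have hωμ := ne_of_norm hω hμ
  set v0 : ℂ := (ω + μ) / (ω - μ) with hv0
  set x : ℝ := v0.re with hxdef
  set β : ℂ := 1 + v0.im * I with hβdef
  have hβ : β.re = 1 := by simp [hβdef]
  have hB1 : Bf β x 1 = 2 * ω / (ω - μ) := by
    have h1 : Bf β x 1 = 1 + v0 := by
      rw [Bf, hβdef, hxdef]
      have := Complex.re_add_im v0
      linear_combination this
    rw [h1, hv0]
    field_simp
    ring
  have hx : 0 < x := by
    have h1 : 2 * ω / (ω - μ) = 1 + v0 := by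
      rw [hv0]; field_simp; ring
    have h2 := Wf_mem (β := 1) (x := 1) hω (by simp) one_pos hμ
    rw [mem_RH, Wf, h1] at h2
    simpa using h2
  set S : ℂ × ℂ → ℂ := fun w => Sf ω β x (F (sy (lf ω β x w.1) (lf ω β x w.2))) with hSdef
  set P : ℂ × ℂ → ℂ := fun w => Pf ω β x (F (sy (lf ω β x w.1) (lf ω β x w.2))) with hPdef
  have hlfd : DifferentiableOn ℂ (lf ω β x) RH := by
    intro w hw
    apply DifferentiableAt.differentiableWithinAt
    have h1 := Bf_ne hβ hx hw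
    have h2 : DifferentiableAt ℂ (Bf β x) w := by unfold Bf; fun_prop
    unfold lf
    fun_prop (disch := assumption)
  have hq : DifferentiableOn ℂ (fun w : ℂ × ℂ => sy (lf ω β x w.1) (lf ω β x w.2)) (RH ×ˢ RH) := by
    have h1 : DifferentiableOn ℂ (fun w : ℂ × ℂ => lf ω β x w.1) (RH ×ˢ RH) :=
      hlfd.comp differentiableOn_fst (fun w hw => hw.1)
    have h2 : DifferentiableOn ℂ (fun w : ℂ × ℂ => lf ω β x w.2) (RH ×ˢ RH) :=
      hlfd.comp differentiableOn_snd (fun w hw => hw.2)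
    rw [differentiableOn_euclidean]
    intro i
    fin_cases i
    · exact h1.add h2
    · exact h1.mul h2
  have hqm : MapsTo (fun w : ℂ × ℂ => sy (lf ω β x w.1) (lf ω β x w.2)) (RH ×ˢ RH) symBidisc :=
    fun w hw => sy_mem (norm_lf hω hβ hx hw.1) (norm_lf hω hβ hx hw.2)
  have hFq : DifferentiableOn ℂ (fun w : ℂ × ℂ => F (sy (lf ω β x w.1) (lf ω β x w.2)))
      (RH ×ˢ RH) := hFd.comp hq hqm
  have hF0 : ∀ i, DifferentiableOn ℂ
      (fun w : ℂ × ℂ => F (sy (lf ω β x w.1) (lf ω β x w.2)) i) (RH ×ˢ RH) :=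
    differentiableOn_euclidean.1 hFq
  have hDd : DifferentiableOn ℂ
      (fun w : ℂ × ℂ => Df ω (F (sy (lf ω β x w.1) (lf ω β x w.2)))) (RH ×ˢ RH) := by
    unfold Df
    exact ((differentiableOn_const _).sub ((hF0 0).const_mul ω)).add (hF0 1)
  have hDn : ∀ w ∈ RH ×ˢ RH, Df ω (F (sy (lf ω β x w.1) (lf ω β x w.2))) ≠ 0 :=
    fun w hw => Df_ne hω (hm (hqm hw))
  have hTd : DifferentiableOn ℂ
      (fun w : ℂ × ℂ => Tf ω (F (sy (lf ω β x w.1) (lf ω β x w.2)))) (RH ×ˢ RH) := by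
    unfold Tf
    simp only [div_eq_mul_inv]
    exact (((differentiableOn_const (2 * ω)).sub (hF0 0)).const_mul (2 * ω)).mul (hDd.inv hDn)
  have hT : Tangent S P := by
    refine ⟨?_, ?_, ?_, ?_, ?_, ?_, ?_⟩
    · simp only [hSdef, Sf, div_eq_mul_inv]
      exact (hTd.sub_const _).mul_const _
    · simp only [hPdef, Pf, div_eq_mul_inv]
      exact (((((differentiableOn_const (4 * ω ^ 2)).mul (hDd.inv hDn))).sub
        (hTd.const_mul β)).add_const _).mul_const _
    · intro a _ b _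
      simp only [hSdef]
      rw [sy_comm]
    · intro a _ b _
      simp only [hPdef]
      rw [sy_comm]
    · intro a ha b hb
      obtain ⟨z₁, z₂, h1, h2, h3⟩ := hm (hqm (x := (a, b)) ⟨ha, hb⟩)
      refine ⟨Wf ω β x z₁, Wf_mem hω hβ hx h1, Wf ω β x z₂, Wf_mem hω hβ hx h2, ?_, ?_⟩
      · simp only [hSdef]
        simp only at h3
        rw [h3]
        exact Sf_sy hω h1 h2 hx.ne'
      · simp only [hPdef]
        simp only at h3
        rw [h3]
        exact Pf_sy hω h1 h2 hx.ne'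
    · intro φ hφm hφ
      exact (asymp hω hμ hβ hx hB1 hm hF hφm hφ).1
    · intro hSe φ hφm hφ
      apply (asymp hω hμ hβ hx hB1 hm hF hφm hφ).2
      filter_upwards [eventually_mem_RH] with w hw
      exact hSe w hw (φ w) (hφm hw)
  rintro z ⟨a, b, ha, hb, rfl⟩
  have hz : sy a b ∈ symBidisc := sy_mem ha hb
  have hwa := Wf_mem hω hβ hx ha
  have hwb := Wf_mem hω hβ hx hb
  have h1 := hT.S_eq _ hwa _ hwb
  have h2 := hT.P_eq _ hwa _ hwb
  simp only [hSdef, lf_Wf hω hx ha, lf_Wf hω hx hb] at h1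
  simp only [hPdef, lf_Wf hω hx ha, lf_Wf hω hx hb] at h2
  apply inj (β := β) hω hx.ne' (hm hz) hz
  · rw [← Sf_sy hω ha hb hx.ne'] at h1
    exact h1
  · rw [← Pf_sy hω ha hb hx.ne'] at h2
    exact h2

end Pool.Agent.Results.MP_f98e31_an.SmoothPointRigidity
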